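import Pool.Agent.R554.OpenPackHard
import Pool.Agent.R554.Collapse

/-!
# Recognising graphs whose maximal open packings all have equal size is coNP-complete

The decision problem has as input a finite simple graph, given by an adjacency matrix
`M : List (List Bool)`; `matGraph M` is the graph.  The question is whether all maximal open packings
of the graph have the same number of vertices (`Pool.Agent.R554.OP.EqualSizes`).
-/

set_option autoImplicit false

namespace Pool.Agent.Results.MP_563097_lc.EqualOpenPackingsCoNPComplete

open Pool.Agent.NPC Pool.Agent.H622R2 Pool.Agent.R554.OP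

/-- The problem is in `coNP`; it is `coNP`-hard, and so is every problem that agrees with it on
bipartite graphs; it is in `P` if and only if all of `NP` is in `P`. -/
theorem result :
    InCoNPP (fun M : List (List Bool) => EqualSizes (matGraph M)) ∧
    (∀ P : List (List Bool) → Prop,
      (∀ M, (matGraph M).Colorable 2 → (P M ↔ EqualSizes (matGraph M))) → CoNPHardP P) ∧
    CoNPHardP (fun M : List (List Bool) => EqualSizes (matGraph M)) ∧
    (InPP (fun M : List (List Bool) => EqualSizes (matGraph M)) ↔
      ∀ L : Set (List Bool), InNP L → InP L) := by
  have key : ∀ P : List (List Bool) → Prop,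
      (∀ M, (matGraph M).Colorable 2 → (P M ↔ EqualSizes (matGraph M))) → CoNPHardP P := by
    intro P hP
    have h1 : HardPr (fun _ : List (List Bool) => True) (fun M => ¬ P M) :=
      hardPr_not.trans (f := fun M => M) Poly.id (fun _ _ => trivial)
        (fun M hM => not_congr (hP M hM).symm)
    exact h1.toHardI.toCoNPHardP
  have h : CoNPHardP (fun M : List (List Bool) => EqualSizes (matGraph M)) :=
    key _ (fun _ _ => Iff.rfl)
  exact ⟨inCoNP_equal, key, h, fun h' => R554.CoNPHard.collapse h h',
    fun h' => R554.InP.compl (h' _ inCoNP_equal)⟩

end Pool.Agent.Results.MP_563097_lc.EqualOpenPackingsCoNPComplete
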